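import Pool.Agent.H62.BC.Targets

/-!
# Bounded catalysis, row L3: the factorisation of `(1 + T) ^ n` modulo `T ^ (e + 1)`
-/

set_option autoImplicit false

open TensorProduct Module

namespace Pool.Agent.H12.BC

open Pool.Agent.H12.Defect Pool.Agent.H15.Defect Pool.Agent.H15.CX Pool.Agent.H2.WG
open Pool.Agent.H62.BC

universe u

section lists

variable {R : Type u} [Ring R]

/-- the product of the factors `1 + X M` -/
noncomputable def lpol (l : List R) : Polynomial R :=
  (l.map fun M => 1 + Polynomial.X * Polynomial.C M).prod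

theorem lpol_nil : lpol ([] : List R) = 1 := rfl

theorem lpol_append (l l' : List R) : lpol (l ++ l') = lpol l * lpol l' := by
  unfold lpol
  rw [List.map_append, List.prod_append]

theorem ppol_congr (f g : ℕ → R) (n : ℕ) (h : ∀ i, i < n → f i = g i) : ppol f n = ppol g n := by
  induction n with
  | zero => rfl
  | succ n ih =>
    show ppol f n * (1 + Polynomial.X * Polynomial.C (f n)) =
      ppol g n * (1 + Polynomial.X * Polynomial.C (g n))
    rw [ih (fun i hi => h i (by omega)), h n (by omega)]

theorem ppol_getD (l : List R) : ppol (fun i => l.getD i 0) l.length = lpol l := by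
  induction l using List.reverseRecOn with
  | nil => rfl
  | append_singleton l a ih =>
    have e1 : (l ++ [a]).length = l.length + 1 := by simp
    rw [e1]
    show ppol (fun i => (l ++ [a]).getD i 0) l.length *
      (1 + Polynomial.X * Polynomial.C ((l ++ [a]).getD l.length 0)) = _
    have e2 : (l ++ [a]).getD l.length 0 = a := by simp
    have e3 : ppol (fun i => (l ++ [a]).getD i 0) l.length = ppol (fun i => l.getD i 0) l.length := by
      apply ppol_congr
      intro i hi
      simp [List.getD_eq_getElem?_getD, List.getElem?_append_left hi]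
    rw [e2, e3, ih, lpol_append]
    congr 1
    unfold lpol
    simp

theorem ppol_pad (f : ℕ → R) (n m : ℕ) (h : ∀ i, n ≤ i → f i = 0) : ppol f (n + m) = ppol f n := by
  induction m with
  | zero => rfl
  | succ m ih =>
    show ppol f (n + m) * (1 + Polynomial.X * Polynomial.C (f (n + m))) = _
    rw [ih, h (n + m) (by omega)]
    simp

/-- multiplication by a factor `1 + X ^ j N` -/
theorem coeff_mul_factor (p : Polynomial R) (j i : ℕ) (N : R) :
    (p * (1 + Polynomial.X ^ j * Polynomial.C N)).coeff i =
      p.coeff i + if j ≤ i then p.coeff (i - j) * N else 0 := by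
  have e : p * (1 + Polynomial.X ^ j * Polynomial.C N) =
      p + (p * Polynomial.X ^ j) * Polynomial.C N := by
    rw [mul_add, mul_one, mul_assoc]
  rw [e, Polynomial.coeff_add, Polynomial.coeff_mul_C, Polynomial.coeff_mul_X_pow']
  split_ifs <;> simp

theorem coeff_mul_factors (j : ℕ) (hj : 1 ≤ j) (s : List R) :
    ∀ p : Polynomial R,
      (∀ i, i < j → (p * (s.map fun N => 1 + Polynomial.X ^ j * Polynomial.C N).prod).coeff i =
        p.coeff i) ∧
      (p * (s.map fun N => 1 + Polynomial.X ^ j * Polynomial.C N).prod).coeff j =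
        p.coeff j + p.coeff 0 * s.sum := by
  induction s with
  | nil => intro p; simp
  | cons N s ih =>
    intro p
    have e : p * ((N :: s).map fun N => 1 + Polynomial.X ^ j * Polynomial.C N).prod =
        (p * (1 + Polynomial.X ^ j * Polynomial.C N)) *
          (s.map fun N => 1 + Polynomial.X ^ j * Polynomial.C N).prod := by
      rw [List.map_cons, List.prod_cons, mul_assoc]
    rw [e]
    obtain ⟨h1, h2⟩ := ih (p * (1 + Polynomial.X ^ j * Polynomial.C N))
    refine ⟨?_, ?_⟩
    · intro i hi
      rw [h1 i hi, coeff_mul_factor, if_neg (by omega), add_zero]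
    · rw [h2, coeff_mul_factor, coeff_mul_factor, if_pos le_rfl, if_neg (by omega), add_zero,
        Nat.sub_self, List.sum_cons, mul_add, add_assoc]

end lists

/-- `1 + Y ^ j` is a product of `j` factors `1 + a Y` -/
theorem scalars (k : Type u) [Field k] [IsAlgClosed k] (j : ℕ) (hj : 1 ≤ j) :
    ∃ a : List k, a.length = j ∧
      (a.map fun c => (1 + Polynomial.X * Polynomial.C c : Polynomial k)).prod =
        1 + Polynomial.X ^ j := by
  classical
  set P : Polynomial k := Polynomial.X ^ j + Polynomial.C 1 with hP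
  have hmonic : P.Monic := Polynomial.monic_X_pow_add_C 1 (by omega)
  have hdeg : P.natDegree = j := Polynomial.natDegree_X_pow_add_C
  have hsplit : P.Splits := IsAlgClosed.splits P
  have hprod : (P.roots.map fun b => Polynomial.X - Polynomial.C b).prod = P := by
    have := hsplit.eq_prod_roots_of_monic hmonic
    exact this.symm
  have hcard : Multiset.card P.roots = j := by
    rw [← hdeg]
    exact hsplit.natDegree_eq_card_roots.symm
  have hroot0 : ∀ b ∈ P.roots, b ≠ 0 := by
    intro b hb h0
    have := (Polynomial.mem_roots hmonic.ne_zero).mp hb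
    rw [h0, Polynomial.IsRoot.def, hP] at this
    simp [zero_pow (by omega : j ≠ 0)] at this
  have heval : (P.roots.map fun b => -b).prod = 1 := by
    have h1 := congrArg (Polynomial.eval 0) hprod
    rw [Polynomial.eval_multiset_prod, Multiset.map_map] at h1
    have h2 : Polynomial.eval 0 P = 1 := by
      rw [hP]
      simp [zero_pow (by omega : j ≠ 0)]
    rw [h2] at h1
    rw [← h1]
    congr 1
    apply Multiset.map_congr rfl
    intro b _
    simp
  refine ⟨(P.roots.toList.map fun b => -b⁻¹), by simp [hcard], ?_⟩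
  rw [List.map_map]
  have e1 : (P.roots.toList.map ((fun c => (1 + Polynomial.X * Polynomial.C c : Polynomial k)) ∘
      fun b => -b⁻¹)).prod = (P.roots.map fun b =>
        (1 + Polynomial.X * Polynomial.C (-b⁻¹) : Polynomial k)).prod := by
    conv_rhs => rw [← Multiset.coe_toList P.roots]
    rw [Multiset.map_coe, Multiset.prod_coe]
    rfl
  rw [e1]
  have e2 : (P.roots.map fun b => (1 + Polynomial.X * Polynomial.C (-b⁻¹) : Polynomial k)) =
      P.roots.map fun b => Polynomial.C (-b⁻¹) * (Polynomial.X - Polynomial.C b) := by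
    apply Multiset.map_congr rfl
    intro b hb
    have hb0 := hroot0 b hb
    rw [mul_sub, ← Polynomial.C_mul]
    have : -b⁻¹ * b = -1 := by
      rw [neg_mul, inv_mul_cancel₀ hb0]
    rw [this, Polynomial.C_neg (a := (1 : k)), Polynomial.C_1]
    ring
  rw [e2, Multiset.prod_map_mul, hprod]
  have e3 : (P.roots.map fun b => (Polynomial.C (-b⁻¹) : Polynomial k)).prod = 1 := by
    have : (P.roots.map fun b => (Polynomial.C (-b⁻¹) : Polynomial k)).prod =
        Polynomial.C ((P.roots.map fun b => (-b⁻¹ : k)).prod) := by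
      rw [← Multiset.prod_hom (P.roots.map fun b => (-b⁻¹ : k)) (Polynomial.C : k →+* Polynomial k),
        Multiset.map_map]
      rfl
    rw [this]
    have h2 : (P.roots.map fun b => (-b⁻¹ : k)).prod * (P.roots.map fun b => -b).prod = 1 := by
      rw [← Multiset.prod_map_mul]
      have : (P.roots.map fun b => (-b⁻¹ : k) * -b) = P.roots.map fun _ => (1 : k) := by
        apply Multiset.map_congr rfl
        intro b hb
        rw [neg_mul_neg, inv_mul_cancel₀ (hroot0 b hb)]
      rw [this]
      simp
    rw [heval, mul_one] at h2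
    rw [h2, Polynomial.C_1]
  rw [e3, one_mul, hP, Polynomial.C_1, add_comm]

/-- a factor `1 + X ^ j N ^ j` as a product of `j` factors `1 + X (a N)` -/
theorem factor_list {k : Type u} [Field k] {A : Type u} [Ring A] [Algebra k A] (j : ℕ)
    (a : List k) (ha : (a.map fun c => (1 + Polynomial.X * Polynomial.C c : Polynomial k)).prod =
      1 + Polynomial.X ^ j) (N : A) :
    lpol (a.map fun c => c • N) = 1 + Polynomial.X ^ j * Polynomial.C (N ^ j) := by
  have hcomm : Commute (Polynomial.X : Polynomial A) (Polynomial.C N) :=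
    Polynomial.commute_X _
  have h1 := congrArg (Polynomial.aeval (Polynomial.X * Polynomial.C N : Polynomial A)) ha
  rw [map_list_prod, List.map_map, map_add, map_one, map_pow, Polynomial.aeval_X,
    hcomm.mul_pow, ← Polynomial.C_pow] at h1
  rw [← h1]
  unfold lpol
  rw [List.map_map]
  congr 1
  apply List.map_congr_left
  intro c _
  show (1 + Polynomial.X * Polynomial.C (c • N) : Polynomial A) =
    Polynomial.aeval (Polynomial.X * Polynomial.C N : Polynomial A)
      (1 + Polynomial.X * Polynomial.C c)
  rw [map_add, map_one, map_mul, Polynomial.aeval_X, Polynomial.aeval_C]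
  have : (algebraMap k (Polynomial A)) c = Polynomial.C (algebraMap k A c) := rfl
  rw [this, mul_assoc, ← Polynomial.C_mul, Algebra.smul_def, Algebra.commutes]

theorem good_smul {k : Type u} [Field k] {I : Type} [Fintype I] [DecidableEq I] (c : k)
    (M : Matrix I I k) (h : GoodMat M) : GoodMat (c • M) := by
  rcases h with h | ⟨u, w, rfl⟩
  · left
    obtain ⟨n, hn⟩ := h
    exact ⟨n, by rw [smul_pow, hn, smul_zero]⟩
  · right
    exact ⟨c • u, w, (Matrix.smul_vecMulVec c u w).symm⟩

/-- one coefficient more, in an abstract algebra -/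
theorem step_ring {k : Type u} [Field k] {A : Type u} [Ring A] [Algebra k A] (good : A → Prop)
    (hg : ∀ (x : k) (N : A), good N → good (x • N)) (j : ℕ) (hj : 1 ≤ j)
    (a : List k) (halen : a.length = j)
    (ha : (a.map fun c => (1 + Polynomial.X * Polynomial.C c : Polynomial k)).prod =
      1 + Polynomial.X ^ j) (R : Polynomial A) (hR : R.coeff 0 = 1) (l0 : List A)
    (hgood : ∀ M ∈ l0, good M) (hcoef : ∀ i < j, (lpol l0).coeff i = R.coeff i)
    (c : ℕ) (M : Fin c → A) (hMg : ∀ i, good (M i))
    (hM : R.coeff j - (lpol l0).coeff j = ∑ i, M i ^ j) :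
    ∃ l : List A, l.length = l0.length + c * j ∧ (∀ N ∈ l, good N) ∧
      ∀ i ≤ j, (lpol l).coeff i = R.coeff i := by
  have hgen : ∀ s : List A, lpol (s.flatMap fun N => a.map fun x => x • N) =
      ((s.map fun N => N ^ j).map fun N => 1 + Polynomial.X ^ j * Polynomial.C N).prod := by
    intro s
    induction s with
    | nil => simp [lpol]
    | cons N s ihs =>
      rw [List.flatMap_cons, lpol_append, ihs, factor_list j a ha N, List.map_cons,
        List.map_cons, List.prod_cons]
  have hlen : ∀ s : List A, (s.flatMap fun N => a.map fun x => x • N).length = s.length * j := by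
    intro s
    induction s with
    | nil => simp
    | cons N s ihs =>
      rw [List.flatMap_cons, List.length_append, ihs, List.length_map, halen, List.length_cons]
      ring
  refine ⟨l0 ++ (List.ofFn M).flatMap fun N => a.map fun x => x • N, ?_, ?_, ?_⟩
  · rw [List.length_append, hlen, List.length_ofFn]
  · intro N hN
    rw [List.mem_append] at hN
    rcases hN with hN | hN
    · exact hgood N hN
    · rw [List.mem_flatMap] at hN
      obtain ⟨N', hN', hN''⟩ := hN
      rw [List.mem_ofFn] at hN'
      obtain ⟨i, rfl⟩ := hN'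
      rw [List.mem_map] at hN''
      obtain ⟨x, _, rfl⟩ := hN''
      exact hg x _ (hMg i)
  · intro i hi
    rw [lpol_append, hgen, List.map_ofFn]
    obtain ⟨k1, k2⟩ := coeff_mul_factors j hj (List.ofFn ((fun N => N ^ j) ∘ M)) (lpol l0)
    by_cases hie : i < j
    · rw [k1 i hie]
      exact hcoef i hie
    · have hij : i = j := by omega
      rw [hij, k2, hcoef 0 (by omega), hR, one_mul, List.sum_ofFn]
      have e1 : (∑ i, ((fun N => N ^ j) ∘ M) i) = ∑ i, M i ^ j := Finset.sum_congr rfl
        (fun i _ => rfl)
      rw [e1, ← hM, add_sub_cancel]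

theorem step (h4 : T_L4.{u}) (k : Type u) [Field k] [IsAlgClosed k] (e : ℕ) (e' : ℕ) :
    e' ≤ e → ∃ n : ℕ, ∀ (h : ℕ)
      (R : Polynomial (Matrix (Fin (e + 1) × Fin h) (Fin (e + 1) × Fin h) k)), R.coeff 0 = 1 →
      ∃ l : List (Matrix (Fin (e + 1) × Fin h) (Fin (e + 1) × Fin h) k), l.length = n ∧
        (∀ M ∈ l, GoodMat M) ∧ ∀ i ≤ e', (lpol l).coeff i = R.coeff i := by
  induction e' with
  | zero =>
    intro _
    refine ⟨0, fun h R hR => ⟨[], rfl, by simp, ?_⟩⟩
    intro i hi
    have : i = 0 := by omega
    subst this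
    rw [lpol_nil, hR]
    simp
  | succ e' ih =>
    intro he
    obtain ⟨n, hn⟩ := ih (by omega)
    obtain ⟨c, hc⟩ := h4 k (e + 1) (e' + 1) (by omega) (by omega)
    obtain ⟨a, halen, ha⟩ := scalars k (e' + 1) (by omega)
    refine ⟨n + c * (e' + 1), ?_⟩
    intro h R hR
    obtain ⟨l0, hlen, hgood, hcoef⟩ := hn h R hR
    obtain ⟨M, hMg, hM⟩ := hc h (R.coeff (e' + 1) - (lpol l0).coeff (e' + 1))
    obtain ⟨l, h1, h2, h3⟩ := step_ring (k := k) (fun M => GoodMat M)
      (fun x N hN => good_smul x N hN) (e' + 1) (by omega) a halen ha R hR l0 hgood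
      (fun i hi => hcoef i (by omega)) c M hMg hM
    exact ⟨l, by rw [h1, hlen], h2, h3⟩

/-- from a list to a sequence -/
theorem final_ring {A : Type u} [Ring A] (good : A → Prop) (h0 : good 0) (e n : ℕ)
    (l : List A) (hlen : l.length = n) (hgood : ∀ M ∈ l, good M)
    (hcoef : ∀ i ≤ e, (lpol l).coeff i =
      ((1 + Polynomial.X : Polynomial A) ^ (n + (e + 1))).coeff i) :
    ∃ M : ℕ → A, (∀ i, good (M i)) ∧
      ∀ j ≤ e, (ppol M (n + (e + 1))).coeff j = ((n + (e + 1)).choose j : ℕ) := by
  have hout : ∀ i, n ≤ i → l.getD i 0 = 0 := by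
    intro i hi
    rw [List.getD_eq_default]
    omega
  refine ⟨fun i => l.getD i 0, ?_, ?_⟩
  · intro i
    show good (l.getD i 0)
    by_cases hi : i < l.length
    · have e1 : l.getD i 0 = l[i] := by simp [List.getD_eq_getElem?_getD, hi]
      rw [e1]
      exact hgood _ (List.getElem_mem hi)
    · rw [hout i (by omega)]
      exact h0
  · intro j hj
    rw [ppol_pad _ n (e + 1) hout]
    have e1 := ppol_getD l
    rw [hlen] at e1
    rw [e1, hcoef j hj, Polynomial.coeff_one_add_X_pow]

theorem pf_L3 (h : T_L4.{u}) : T_L3.{u} := by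
  intro k _ _ e
  obtain ⟨n, hn⟩ := step h k e e le_rfl
  refine ⟨n + (e + 1), by omega, ?_⟩
  intro hh
  obtain ⟨l, hlen, hgood, hcoef⟩ := hn hh ((1 + Polynomial.X) ^ (n + (e + 1))) (by
    rw [Polynomial.coeff_one_add_X_pow, Nat.choose_zero_right, Nat.cast_one])
  exact final_ring (fun M => GoodMat M) (Or.inl IsNilpotent.zero) e n l hlen hgood hcoef

end Pool.Agent.H12.BC
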